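import Pool.Agent.J4H63.KS.Stm
import Pool.Agent.J4H17.SP.Asm

/-! Project KS (helper63), piece HKA (helper98): from Hypothesis H for k-CNF-SAT to Hypothesis H. -/

set_option autoImplicit false

namespace Pool.Agent.J4H98.KS

open Finset Pool.Agent.J4H64.SS Pool.Agent.J4H95.SP Pool.Agent.J4H63.KS

theorem acmono {I : Type} {w w' : ℕ} (h : w ≤ w') {d : ℕ} {f : (I → Bool) → Prop}
    (hf : AC w d f) : AC w' d f := by
  induction hf with
  | inp d i => exact AC.inp d i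
  | neg _ ih => exact AC.neg ih
  | ex f hk _ ih => exact AC.ex f (hk.trans h) ih

theorem t_HKA : S_HKA := by
  intro hSPL hRK hSBT hCLK hOR k hK
  obtain ⟨δ, hδ, hS⟩ := hK
  obtain ⟨B, K₁, d₁, hspl⟩ := hSPL k (δ / 4) (by positivity)
  obtain ⟨c, K₂, d₂, hrk⟩ := hRK k B
  -- the constant
  have hc1 : 1 ≤ c := by
    obtain ⟨N, h1, h2, _⟩ := hrk 1 le_rfl
    omega
  have hc0 : (0 : ℝ) < c := by exact_mod_cast hc1
  set Kw : ℕ := K₁ + K₂ + 1 with hKw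
  set E : ℕ := (k + 1) + Kw * (2 * (d₂ + d₁)) + 1 with hE
  obtain ⟨N₁, hN₁⟩ := J4H17.SP.poly_le (δ / 8) (by positivity) E
  refine ⟨δ / 4 / c, by positivity, fun d N₀ => ?_⟩
  obtain ⟨n, hn, hn1, hno⟩ := hS (d + (d₂ + d₁) + 2) (max (max N₀ 2) (max N₁ ⌈8 / δ⌉₊))
  have hnN₀ : N₀ ≤ n := (le_max_left _ _).trans ((le_max_left _ _).trans hn)
  have hn2 : 2 ≤ n := (le_max_right _ _).trans ((le_max_left _ _).trans hn)
  have hnN₁ : N₁ ≤ n := (le_max_left _ _).trans ((le_max_right _ _).trans hn)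
  have hnδ : 8 / δ ≤ n := by
    have h1 : ⌈8 / δ⌉₊ ≤ n := (le_max_right _ _).trans ((le_max_right _ _).trans hn)
    exact (Nat.le_ceil _).trans (by exact_mod_cast h1)
  obtain ⟨N, hnN, hNc, G, hG, hGs⟩ := hrk n hn1
  obtain ⟨β, hβf, ψ, hβ, hβn, hψ, hsp, hequ⟩ := hspl n hn1
  refine ⟨N, hnN₀.trans hnN, hn1.trans hnN, ?_⟩
  rintro ⟨D, hwf, hd, hsize, hacc⟩
  refine hno ?_
  set w : ℕ := (2 * n) ^ Kw with hw
  have hw2 : 2 ≤ w := by
    calc 2 ≤ 2 * n := by omega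
      _ = (2 * n) ^ 1 := (pow_one _).symm
      _ ≤ w := Nat.pow_le_pow_right (by omega) (by omega)
  have hw1 : (2 * n) ^ K₁ ≤ w := Nat.pow_le_pow_right (by omega) (by omega)
  have hw3 : (2 * n) ^ K₂ ≤ w := Nat.pow_le_pow_right (by omega) (by omega)
  have hne : Nonempty (ClK k n) := ⟨⟨∅, by simp⟩⟩
  obtain ⟨C, g1, g2, g3, g4⟩ := hOR (ClK k n) (Cl N) β w d (d₂ + d₁) D.m
    (fun _ => D) hw2 (fun _ => hwf) (fun _ => hd) (fun _ => le_rfl)
    (fun t x => G (ψ t x)) (fun t q => hSBT (ClK k n) (ClK k n) w d₂ d₁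
      (fun y => G y q = true) (ψ t) (acmono hw3 (hG q)) (fun j => acmono hw1 (hψ t j)))
  refine ⟨C, g1, g2, ?_, fun x => ?_⟩
  · -- sizes
    set Y : ℝ := (2 : ℝ) ^ (δ / 8 * (n : ℝ)) with hY
    have hY2 : 2 ≤ Y := by
      have h1 : (1 : ℝ) ≤ δ / 8 * n := by
        rw [div_le_iff₀ hδ] at hnδ
        linarith
      calc (2 : ℝ) = (2 : ℝ) ^ (1 : ℝ) := (Real.rpow_one 2).symm
        _ ≤ Y := Real.rpow_le_rpow_of_exponent_le (by norm_num) h1
    have hY4 : (2 : ℝ) ^ (δ / 4 * (n : ℝ)) = Y * Y := by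
      rw [hY, ← Real.rpow_add (by norm_num)]
      congr 1
      ring
    have hβ' : ((Fintype.card β : ℕ) : ℝ) ≤ Y * Y := by
      rw [← hY4]
      exact hβ
    have hsize' : (Fintype.card (Cl N) : ℝ) + (D.m : ℝ) ≤ Y * Y := by
      refine hsize.trans ?_
      rw [← hY4]
      apply Real.rpow_le_rpow_of_exponent_le (by norm_num)
      have h1 : (N : ℝ) ≤ c * n := by exact_mod_cast hNc
      calc δ / 4 / c * (N : ℝ) ≤ δ / 4 / c * (c * n) := by gcongr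
        _ = δ / 4 * n := by field_simp
    have hWE : ((((2 * n) ^ E) : ℕ) : ℝ) ≤ Y := by
      exact_mod_cast hN₁ n hnN₁
    set W : ℝ := (((2 * n) ^ (Kw * (2 * (d₂ + d₁))) : ℕ) : ℝ) with hWd
    have hwW : ((w ^ (2 * (d₂ + d₁)) : ℕ) : ℝ) = W := by
      rw [hWd, hw, ← pow_mul]
    have hW1 : (1 : ℝ) ≤ W := by
      have : 1 ≤ (2 * n) ^ (Kw * (2 * (d₂ + d₁))) := Nat.one_le_pow _ _ (by omega)
      rw [hWd]
      exact_mod_cast this
    set P : ℝ := (((2 * n) ^ (k + 1) : ℕ) : ℝ) with hPd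
    have hP1 : (1 : ℝ) ≤ P := by
      have : 1 ≤ (2 * n) ^ (k + 1) := Nat.one_le_pow _ _ (by omega)
      rw [hPd]
      exact_mod_cast this
    have hPW : 2 * (P * W) ≤ Y := by
      have h1 : 2 * ((2 * n) ^ (k + 1) * (2 * n) ^ (Kw * (2 * (d₂ + d₁)))) ≤ (2 * n) ^ E := by
        calc 2 * ((2 * n) ^ (k + 1) * (2 * n) ^ (Kw * (2 * (d₂ + d₁))))
            ≤ (2 * n) * ((2 * n) ^ (k + 1) * (2 * n) ^ (Kw * (2 * (d₂ + d₁)))) :=
              Nat.mul_le_mul_right _ (by omega)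
          _ = (2 * n) ^ E := by
              rw [hE, pow_succ, pow_add]
              ring
      have h2 : ((2 * ((2 * n) ^ (k + 1) * (2 * n) ^ (Kw * (2 * (d₂ + d₁)))) : ℕ) : ℝ) ≤
          (((2 * n) ^ E : ℕ) : ℝ) := by exact_mod_cast h1
      have h3 : ((2 * ((2 * n) ^ (k + 1) * (2 * n) ^ (Kw * (2 * (d₂ + d₁)))) : ℕ) : ℝ) =
          2 * (P * W) := by
        rw [hWd, hPd]; push_cast; ring
      rw [← h3]
      exact h2.trans hWE
    have hPc : (Fintype.card (ClK k n) : ℝ) ≤ P := by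
      rw [hPd]
      exact_mod_cast hCLK k n hn1
    have g3' : (C.m : ℝ) ≤ 1 + (Fintype.card β : ℝ) *
        ((D.m : ℝ) + (Fintype.card (Cl N) : ℝ) * W) := by
      rw [← hwW]
      exact_mod_cast g3
    set L : ℝ := (Fintype.card (Cl N) : ℝ) with hL
    set M : ℝ := (D.m : ℝ) with hM
    have hM0 : 0 ≤ M := Nat.cast_nonneg _
    have hL0 : 0 ≤ L := Nat.cast_nonneg _
    have e1 : (2 : ℝ) ^ (δ * (n : ℝ)) = ((Y * Y) * (Y * Y)) * ((Y * Y) * (Y * Y)) := by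
      rw [hY, ← Real.rpow_add (by norm_num), ← Real.rpow_add (by norm_num),
        ← Real.rpow_add (by norm_num)]
      congr 1
      ring
    rw [e1]
    have f2 : W ≤ Y := by nlinarith
    have f1 : P ≤ Y := by nlinarith
    have hY0 : (0 : ℝ) < Y := by linarith
    have f3 : M + L * W ≤ (Y * Y) * Y := by
      have : M + L * W ≤ (L + M) * W := by nlinarith
      calc M + L * W ≤ (L + M) * W := this
        _ ≤ (Y * Y) * Y := mul_le_mul hsize' f2 (by linarith) (by positivity)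
    have f4 : (Fintype.card β : ℝ) * (M + L * W) ≤ (Y * Y) * ((Y * Y) * Y) :=
      mul_le_mul hβ' f3 (by nlinarith) (by positivity)
    have f5 : 4 ≤ Y * Y := by nlinarith
    set Z : ℝ := Y * Y with hZ
    have f6 : Y ≤ Z := by nlinarith
    have f7 : P + (1 + Z * (Z * Y)) ≤ (Z * Z) * (Z * Z) := by
      have k1 : Z * Y ≤ Z * Z := by nlinarith
      have k2 : Z * (Z * Y) ≤ Z * (Z * Z) := by nlinarith
      have k3 : 16 ≤ Z * Z := by nlinarith
      have k4 : Z * (Z * Z) * 4 ≤ (Z * Z) * (Z * Z) := by nlinarith [mul_pos (show (0:ℝ) < Z by linarith) (show (0:ℝ) < Z * Z by nlinarith)]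
      have k5 : P ≤ Z := f1.trans f6
      have k6 : Z ≤ Z * (Z * Z) := by nlinarith
      nlinarith
    linarith
  · rw [g4]
    constructor
    · rintro ⟨t, ht⟩
      have h1 := (hGs (ψ t x) (hsp t x)).1 ((hacc _).1 ht)
      obtain ⟨a, ha⟩ := h1
      exact ⟨a, (hequ x a).2 ⟨t, ha⟩⟩
    · rintro ⟨a, ha⟩
      obtain ⟨t, ht⟩ := (hequ x a).1 ha
      exact ⟨t, (hacc _).2 ((hGs (ψ t x) (hsp t x)).2 ⟨a, ht⟩)⟩

end Pool.Agent.J4H98.KS
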